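import Pool.Agent.helper94.AP.SpecU

set_option autoImplicit false

namespace Pool.Agent.AP

open Finset

/-- the classes -/
def MUX_S (s A n : ℕ) : Finset ℕ :=
  (range (s * A ^ 2)).filter (fun x : ℕ => s ∣ x ∧ (A : ℤ) ^ 2 ∣ (x : ℤ) ^ 2 - 4 * (n : ℤ))

theorem MUX_sq (A : ℕ) (a b n : ℤ) (h : (A : ℤ) ^ 2 ∣ a - b) (ha : (A : ℤ) ^ 2 ∣ a ^ 2 - 4 * n) :
    (A : ℤ) ^ 2 ∣ b ^ 2 - 4 * n := by
  have e : b ^ 2 - 4 * n = (a ^ 2 - 4 * n) - (a - b) * (a + b) := by ring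
  rw [e]
  exact dvd_sub ha (dvd_mul_of_dvd_left h _)

theorem MUX_card (s A n : ℕ) (hA : 1 ≤ A) (hc : Nat.Coprime s (A ^ 2)) :
    (MUX_S s A n).card ≤ ((range (A ^ 2)).filter (fun x : ℕ => (A : ℤ) ^ 2 ∣ (x : ℤ) ^ 2 - 4 * (n : ℤ))).card := by
  have hA2 : 0 < A ^ 2 := by positivity
  refine Finset.card_le_card_of_injOn (fun x => x % A ^ 2) ?_ ?_
  · intro x hx
    have hx' := Finset.mem_filter.1 (Finset.mem_coe.1 hx)
    refine Finset.mem_coe.2 (Finset.mem_filter.2 ⟨Finset.mem_range.2 (Nat.mod_lt _ hA2), ?_⟩)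
    refine MUX_sq A (x : ℤ) _ n ?_ hx'.2.2
    push_cast
    exact Int.dvd_self_sub_emod
  · intro x hx x' hx' h
    have h1 := Finset.mem_filter.1 (Finset.mem_coe.1 hx)
    have h2 := Finset.mem_filter.1 (Finset.mem_coe.1 hx')
    have hm1 : x ≡ x' [MOD A ^ 2] := h
    have hm2 : x ≡ x' [MOD s] :=
      ((Nat.modEq_zero_iff_dvd.2 h1.2.1).trans (Nat.modEq_zero_iff_dvd.2 h2.2.1).symm)
    exact ((Nat.modEq_and_modEq_iff_modEq_mul hc).1 ⟨hm2, hm1⟩).eq_of_lt_of_lt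
      (Finset.mem_range.1 h1.1) (Finset.mem_range.1 h2.1)

theorem MUX (hXI : XI_stmt) (hRHO : RHO_stmt) (hKAP : KAP_stmt) : MUX_stmt := by
  classical
  intro p N c s k z y hp hN hc hs hk hz hy hsc hcop F hF
  have hA : 1 ≤ y * k := Nat.mul_pos hy hk
  have hcopn : Nat.Coprime (y * k) (c * z ^ p) :=
    Nat.Coprime.mul_right (Nat.Coprime.coprime_mul_right_right hcop)
      ((Nat.Coprime.coprime_mul_left_right hcop).pow_right p)
  have hcops : Nat.Coprime s ((y * k) ^ 2) :=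
    (Nat.Coprime.coprime_dvd_right hsc (Nat.Coprime.coprime_mul_right_right hcop)).symm.pow_right 2
  have hkap := hKAP.2.2 2 (y * k) c z p hA hp hcop
  have hroots := hRHO (y * k) (c * z ^ p) hA hcopn
  rw [hkap] at hroots
  have hScard : ((MUX_S s (y * k) (c * z ^ p)).card : ℝ) ≤
      8 * (kap 2 (y * k) ((c * z : ℕ) : ℤ) : ℝ) := by
    have h1 := MUX_card s (y * k) (c * z ^ p) hA hcops
    have h2 : ((MUX_S s (y * k) (c * z ^ p)).card : ℤ) ≤ 8 * kap 2 (y * k) ((c * z : ℕ) : ℤ) :=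
      le_trans (by exact_mod_cast h1) hroots
    exact_mod_cast h2
  set T : ℝ := 4 * (c : ℝ) * (z : ℝ) ^ p with hT
  have hy0 : (0 : ℝ) < y := by exact_mod_cast hy
  have hM : 1 ≤ s * (y * k) ^ 2 := Nat.mul_pos hs (by positivity)
  let F' : Finset ℤ := (Icc (-⌈T⌉) ⌈T⌉).filter (fun x : ℤ => N / 2 * (y : ℝ) ^ 2 < T - (x : ℝ) ^ 2 ∧
    T - (x : ℝ) ^ 2 ≤ N * (y : ℝ) ^ 2 ∧ (x % ((s * (y * k) ^ 2 : ℕ) : ℤ)).toNat ∈ MUX_S s (y * k) (c * z ^ p))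
  have hF' : ∀ x : ℤ, x ∈ F' ↔ N / 2 * (y : ℝ) ^ 2 < T - (x : ℝ) ^ 2 ∧ T - (x : ℝ) ^ 2 ≤ N * (y : ℝ) ^ 2 ∧
      (x % ((s * (y * k) ^ 2 : ℕ) : ℤ)).toNat ∈ MUX_S s (y * k) (c * z ^ p) := by
    intro x
    refine ⟨fun h => (Finset.mem_filter.1 h).2, fun h => Finset.mem_filter.2 ⟨?_, h⟩⟩
    have h0 : 0 < T - (x : ℝ) ^ 2 := lt_of_le_of_lt (by positivity) h.1
    have h1 : (|x| : ℝ) ≤ (x : ℝ) ^ 2 := by
      have : |x| ≤ x ^ 2 := by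
        have := Int.le_self_sq |x|
        rwa [sq_abs] at this
      exact_mod_cast this
    have h2 : ((|x| : ℤ) : ℝ) ≤ (⌈T⌉ : ℝ) := by
      push_cast
      have := Int.le_ceil T
      linarith
    have h3 : |x| ≤ ⌈T⌉ := by exact_mod_cast h2
    exact Finset.mem_Icc.2 (abs_le.1 h3)
  have hX := hXI (s * (y * k) ^ 2) (MUX_S s (y * k) (c * z ^ p)) hM (Finset.filter_subset _ _) T N y hN hy0 F' hF'
  have hsub : F ⊆ F' := by
    intro x hx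
    obtain ⟨h1, h2, h3, h4⟩ := hF x hx
    refine (hF' x).2 ⟨h3, h4, ?_⟩
    have hM0 : (0 : ℤ) < ((s * (y * k) ^ 2 : ℕ) : ℤ) := by exact_mod_cast hM
    have hr0 : 0 ≤ x % ((s * (y * k) ^ 2 : ℕ) : ℤ) := Int.emod_nonneg _ hM0.ne'
    have hr1 : x % ((s * (y * k) ^ 2 : ℕ) : ℤ) < ((s * (y * k) ^ 2 : ℕ) : ℤ) := Int.emod_lt_of_pos _ hM0
    have hcast : (((x % ((s * (y * k) ^ 2 : ℕ) : ℤ)).toNat : ℕ) : ℤ) = x % ((s * (y * k) ^ 2 : ℕ) : ℤ) :=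
      Int.toNat_of_nonneg hr0
    have hd : ((s * (y * k) ^ 2 : ℕ) : ℤ) ∣ x - x % ((s * (y * k) ^ 2 : ℕ) : ℤ) := Int.dvd_self_sub_emod
    have hr2 : (x % ((s * (y * k) ^ 2 : ℕ) : ℤ)).toNat < s * (y * k) ^ 2 := by
      rw [← hcast] at hr1
      exact Int.ofNat_lt.1 hr1
    refine Finset.mem_filter.2 ⟨Finset.mem_range.2 hr2, ?_, ?_⟩
    · have hs1 : (s : ℤ) ∣ ((s * (y * k) ^ 2 : ℕ) : ℤ) := by
        exact_mod_cast dvd_mul_right s ((y * k) ^ 2)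
      have hs2 : (s : ℤ) ∣ x % ((s * (y * k) ^ 2 : ℕ) : ℤ) := by
        have := dvd_sub h1 (hs1.trans hd)
        rwa [sub_sub_cancel] at this
      rw [← Int.natCast_dvd_natCast, hcast]
      exact hs2
    · have hA1 : ((y * k : ℕ) : ℤ) ^ 2 ∣ ((s * (y * k) ^ 2 : ℕ) : ℤ) := by
        exact_mod_cast dvd_mul_left ((y * k) ^ 2) s
      rw [hcast]
      refine MUX_sq (y * k) x _ _ (hA1.trans hd) ?_
      have e : x ^ 2 - 4 * ((c * z ^ p : ℕ) : ℤ) = x ^ 2 - 4 * (c : ℤ) * (z : ℤ) ^ p := by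
        push_cast
        ring
      rw [e]
      exact h2
  have hell : 0 ≤ ell T N y := by
    unfold ell
    have : √(T - N * (y : ℝ) ^ 2) ≤ √(T - N / 2 * (y : ℝ) ^ 2) := by
      apply Real.sqrt_le_sqrt
      have : 0 ≤ N * (y : ℝ) ^ 2 := by positivity
      nlinarith
    linarith
  have hcardF : (F.card : ℝ) ≤ F'.card := by exact_mod_cast Finset.card_le_card hsub
  have hup := (abs_le.1 hX).2
  have hMr : ((s * (y * k) ^ 2 : ℕ) : ℝ) = s * (y : ℝ) ^ 2 * (k : ℝ) ^ 2 := by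
    push_cast
    ring
  rw [hMr] at hup
  have hnn : 0 ≤ ell T N y / (s * (y : ℝ) ^ 2 * (k : ℝ) ^ 2) + 2 := by positivity
  calc (F.card : ℝ) ≤ F'.card := hcardF
    _ ≤ (MUX_S s (y * k) (c * z ^ p)).card * (ell T N y / (s * (y : ℝ) ^ 2 * (k : ℝ) ^ 2) + 2) := by
        have e : ((MUX_S s (y * k) (c * z ^ p)).card : ℝ) * (ell T N y / (s * (y : ℝ) ^ 2 * (k : ℝ) ^ 2) + 2) =
          (MUX_S s (y * k) (c * z ^ p)).card * ell T N y / (s * (y : ℝ) ^ 2 * (k : ℝ) ^ 2) +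
            2 * (MUX_S s (y * k) (c * z ^ p)).card := by ring
        rw [e]
        linarith
    _ ≤ _ := mul_le_mul_of_nonneg_right hScard hnn

end Pool.Agent.AP
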